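import Pool.Agent.Helper29.BL.GoalsF

/-!
# Packet 10453 (project BL, MP_a41896_nt): NISO, the group of the nodal cubic `y² + xy = x³`
-/

namespace Pool.Agent.Helper54.BL
open Pool.Agent.Helper29.BL
open WeierstrassCurve

noncomputable section

variable {K : Type} [Field K]

/-- the `x`-coordinate of the point with parameter `u` -/
def nx (u : K) : K := u / (u - 1) ^ 2

/-- the `y`-coordinate of the point with parameter `u` -/
def ny (u : K) : K := u / (u - 1) ^ 3

lemma nodal_negY (x y : K) : (nodal K).negY x y = -y - x := by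
  simp [Affine.negY, nodal]

lemma nodal_equation (x y : K) : (nodal K).Equation x y ↔ y ^ 2 + x * y = x ^ 3 := by
  rw [Affine.equation_iff]; simp [nodal]

lemma nodal_nonsingular (x y : K) : (nodal K).Nonsingular x y ↔
    y ^ 2 + x * y = x ^ 3 ∧ (y ≠ 3 * x ^ 2 ∨ y ≠ -y - x) := by
  rw [Affine.nonsingular_iff, nodal_equation]; simp [nodal]

lemma nodal_par {u : K} (h0 : u ≠ 0) (h1 : u ≠ 1) : (nodal K).Nonsingular (nx u) (ny u) := by
  have h2 : u - 1 ≠ 0 := sub_ne_zero.mpr h1
  rw [nodal_nonsingular]
  refine ⟨?_, ?_⟩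
  · unfold nx ny
    field_simp
    ring
  · by_contra hc
    push Not at hc
    obtain ⟨ha, hb⟩ := hc
    unfold nx ny at ha hb
    have e1 : u * (u + 1) = 0 := by
      field_simp at hb
      linear_combination u * hb
    have e2 : u = -1 := by
      rcases mul_eq_zero.mp e1 with h | h
      · exact absurd h h0
      · exact eq_neg_of_add_eq_zero_left h
    have e3 : u * (2 * u + 1) = 0 := by
      field_simp at ha
      linear_combination (-u) * ha
    have e4 : 2 * u + 1 = 0 := by
      rcases mul_eq_zero.mp e3 with h | h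
      · exact absurd h h0
      · exact h
    rw [e2] at e4
    have e5 : (-1 : K) = 0 := by linear_combination e4
    exact h0 (by rw [e2, e5])

lemma nx_sub {u v : K} (hu : u ≠ 1) (hv : v ≠ 1) :
    nx u - nx v = (v - u) * (u * v - 1) / ((u - 1) ^ 2 * (v - 1) ^ 2) := by
  have h2 : u - 1 ≠ 0 := sub_ne_zero.mpr hu
  have h3 : v - 1 ≠ 0 := sub_ne_zero.mpr hv
  unfold nx
  field_simp
  ring

lemma ny_sub_negY {u : K} (hu : u ≠ 1) :
    ny u - (-ny u - nx u) = u * (u + 1) / (u - 1) ^ 3 := by
  have h2 : u - 1 ≠ 0 := sub_ne_zero.mpr hu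
  unfold nx ny
  field_simp
  ring

variable [DecidableEq K]

lemma nodal_slope {u v : K} (hu0 : u ≠ 0) (hu : u ≠ 1) (hv : v ≠ 1)
    (huv : u * v ≠ 1) : (nodal K).slope (nx u) (nx v) (ny u) (ny v) =
      (u * v * (u + v) - 3 * (u * v) + 1) / ((u - 1) * (v - 1) * (u * v - 1)) := by
  have h2 : u - 1 ≠ 0 := sub_ne_zero.mpr hu
  have h3 : v - 1 ≠ 0 := sub_ne_zero.mpr hv
  have h4 : u * v - 1 ≠ 0 := sub_ne_zero.mpr huv
  by_cases h : u = v
  · subst h
    have h5 : u + 1 ≠ 0 := by
      intro h6
      apply h4
      linear_combination (u - 1) * h6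
    have h7 : ny u ≠ (nodal K).negY (nx u) (ny u) := by
      rw [nodal_negY]
      intro h8
      have h9 := ny_sub_negY hu
      rw [← h8, sub_self] at h9
      have h10 : u * (u + 1) / (u - 1) ^ 3 ≠ 0 := by positivity
      exact h10 h9.symm
    rw [Affine.slope_of_Y_ne rfl h7, nodal_negY, ny_sub_negY hu]
    simp only [nodal, mul_zero, zero_mul, add_zero, one_mul]
    unfold nx ny
    rw [show u * u - 1 = (u - 1) * (u + 1) by ring]
    field_simp
    ring
  · have h5 : v - u ≠ 0 := sub_ne_zero.mpr (Ne.symm h)
    have h6 : nx u ≠ nx v := by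
      intro h8
      have h9 := nx_sub hu hv
      rw [h8, sub_self] at h9
      have h10 : (v - u) * (u * v - 1) / ((u - 1) ^ 2 * (v - 1) ^ 2) ≠ 0 := by positivity
      exact h10 h9.symm
    rw [Affine.slope_of_X_ne h6, nx_sub hu hv]
    unfold ny
    field_simp
    ring

/-- the parametrisation -/
def phi (u : Kˣ) : (nodal K).Point :=
  if h : (u : K) = 1 then 0 else .some (nx (u : K)) (ny (u : K)) (nodal_par u.ne_zero h)

lemma phi_one : phi (1 : Kˣ) = 0 := by
  unfold phi
  rw [dif_pos (by simp)]

lemma phi_of_ne {u : Kˣ} (h : (u : K) ≠ 1) :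
    phi u = .some (nx (u : K)) (ny (u : K)) (nodal_par u.ne_zero h) := by
  unfold phi
  rw [dif_neg h]

lemma phi_mul (u v : Kˣ) : phi (u * v) = phi u + phi v := by
  by_cases hu : (u : K) = 1
  · have : u = 1 := Units.ext hu
    rw [this, one_mul, phi_one, zero_add]
  by_cases hv : (v : K) = 1
  · have : v = 1 := Units.ext hv
    rw [this, mul_one, phi_one, add_zero]
  have h2 : (u : K) - 1 ≠ 0 := sub_ne_zero.mpr hu
  have h3 : (v : K) - 1 ≠ 0 := sub_ne_zero.mpr hv
  have hu0 := u.ne_zero
  have hv0 := v.ne_zero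
  rw [phi_of_ne hu, phi_of_ne hv]
  by_cases huv : (u : K) * v = 1
  · have h4 : u * v = 1 := Units.ext (by rw [Units.val_mul, huv, Units.val_one])
    rw [h4, phi_one]
    have hvu : (v : K) = (u : K)⁻¹ := (eq_inv_of_mul_eq_one_right huv)
    have h5 : (1 : K) - u ≠ 0 := by
      intro h6
      exact h2 (by linear_combination (-1 : K) * h6)
    have h6 : (u : K)⁻¹ - 1 = (1 - u) / u := by field_simp
    symm
    apply Affine.Point.add_of_Y_eq
    · rw [hvu]
      unfold nx
      rw [h6]
      field_simp
      ring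
    · rw [nodal_negY, hvu]
      unfold nx ny
      rw [h6]
      field_simp
      ring
  · have h4 : (u : K) * v - 1 ≠ 0 := sub_ne_zero.mpr huv
    have h5 : ¬ (nx (u : K) = nx (v : K) ∧ ny (u : K) = (nodal K).negY (nx (v : K)) (ny (v : K))) := by
      rintro ⟨h6, h7⟩
      have h8 := nx_sub hu hv
      rw [h6, sub_self] at h8
      have h9 : ((v : K) - u) * (u * v - 1) = 0 := by
        have h10 : ((u : K) - 1) ^ 2 * (v - 1) ^ 2 ≠ 0 := by positivity
        exact (div_eq_zero_iff.mp h8.symm).resolve_right h10
      have h11 : (v : K) = u := by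
        rcases mul_eq_zero.mp h9 with h | h
        · exact sub_eq_zero.mp h
        · exact absurd h h4
      rw [h11, nodal_negY] at h7
      have h12 := ny_sub_negY hu
      rw [← h7, sub_self] at h12
      have h13 : ((u : K) - 1) ^ 3 ≠ 0 := by positivity
      have h14 := (div_eq_zero_iff.mp h12.symm).resolve_right h13
      have h15 : (u : K) + 1 = 0 := (mul_eq_zero.mp h14).resolve_left hu0
      apply h4
      rw [h11]
      linear_combination ((u : K) - 1) * h15
    have h16 : ((u * v : Kˣ) : K) ≠ 1 := by rw [Units.val_mul]; exact huv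
    rw [phi_of_ne h16, Affine.Point.add_some h5]
    have hs := nodal_slope hu0 hu hv huv
    have hX : (nodal K).addX (nx (u : K)) (nx (v : K))
        ((nodal K).slope (nx (u : K)) (nx (v : K)) (ny (u : K)) (ny (v : K))) =
        nx ((u : K) * v) := by
      rw [hs]
      simp only [Affine.addX, nodal, one_mul, sub_zero]
      unfold nx
      field_simp
      ring
    have hY : (nodal K).addY (nx (u : K)) (nx (v : K)) (ny (u : K))
        ((nodal K).slope (nx (u : K)) (nx (v : K)) (ny (u : K)) (ny (v : K))) =
        ny ((u : K) * v) := by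
      rw [Affine.addY, nodal_negY, Affine.negAddY, hX, hs]
      unfold nx ny
      field_simp
      ring
    simp only [Affine.Point.some.injEq, Units.val_mul]
    exact ⟨hX.symm, hY.symm⟩

lemma phi_inj : Function.Injective (phi : Kˣ → (nodal K).Point) := by
  intro u v h
  by_cases hu : (u : K) = 1
  · by_cases hv : (v : K) = 1
    · exact Units.ext (by rw [hu, hv])
    · rw [phi_of_ne hv, show u = 1 from Units.ext hu, phi_one] at h
      exact absurd h.symm (Affine.Point.some_ne_zero _)
  · by_cases hv : (v : K) = 1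
    · rw [phi_of_ne hu, show v = 1 from Units.ext hv, phi_one] at h
      exact absurd h (Affine.Point.some_ne_zero _)
    · rw [phi_of_ne hu, phi_of_ne hv] at h
      simp only [Affine.Point.some.injEq] at h
      obtain ⟨h1, h2⟩ := h
      have h3 : (u : K) - 1 ≠ 0 := sub_ne_zero.mpr hu
      have h4 : (v : K) - 1 ≠ 0 := sub_ne_zero.mpr hv
      have hu0 := u.ne_zero
      have hv0 := v.ne_zero
      have e1 : nx (u : K) = ny (u : K) * (u - 1) := by
        unfold nx ny; field_simp
      have e2 : nx (v : K) = ny (v : K) * (v - 1) := by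
        unfold nx ny; field_simp
      have e3 : ny (u : K) ≠ 0 := by
        unfold ny; positivity
      rw [e1, e2, ← h2] at h1
      have h5 := mul_left_cancel₀ e3 h1
      exact Units.ext (by linear_combination h5)

lemma phi_surj : Function.Surjective (phi : Kˣ → (nodal K).Point) := by
  intro P
  cases P with
  | zero => exact ⟨1, phi_one⟩
  | some x y h =>
    obtain ⟨h1, h2⟩ := (nodal_nonsingular x y).mp h
    have hx : x ≠ 0 := by
      intro h0
      rw [h0] at h1 h2
      have hy : y = 0 := by
        have : y ^ 2 = 0 := by linear_combination h1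
        exact pow_eq_zero_iff (two_ne_zero) |>.mp this
      rw [hy] at h2
      simp at h2
    have hy : y ≠ 0 := by
      intro h0
      rw [h0] at h1
      have h3 : x ^ 3 = 0 := by linear_combination (-1 : K) * h1
      exact hx (pow_eq_zero_iff (three_ne_zero) |>.mp h3)
    have hxy : x + y ≠ 0 := by
      intro h0
      have h3 : x ^ 3 = 0 := by linear_combination (-1 : K) * h1 + y * h0
      exact hx (pow_eq_zero_iff (three_ne_zero) |>.mp h3)
    have hq : (x + y) / y ≠ 0 := div_ne_zero hxy hy
    have hq1 : (x + y) / y - 1 = x / y := by field_simp; ring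
    have hq2 : (x + y) / y ≠ 1 := by
      intro h3
      rw [h3, sub_self] at hq1
      exact (div_ne_zero hx hy) hq1.symm
    refine ⟨Units.mk0 ((x + y) / y) hq, ?_⟩
    rw [phi_of_ne (by rw [Units.val_mk0]; exact hq2)]
    simp only [Affine.Point.some.injEq, Units.val_mk0]
    constructor
    · unfold nx
      rw [hq1]
      field_simp
      linear_combination h1
    · unfold ny
      rw [hq1]
      field_simp
      linear_combination h1

/-- the parametrisation as a homomorphism -/
def phiHom : Additive Kˣ →+ (nodal K).Point where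
  toFun u := phi u.toMul
  map_zero' := phi_one
  map_add' u v := phi_mul u.toMul v.toMul

end

theorem niso : NISO := by
  intro K _ _
  have hb : Function.Bijective (phiHom : Additive Kˣ →+ (nodal K).Point) :=
    ⟨fun u v h => phi_inj h, phi_surj⟩
  refine ⟨(AddEquiv.ofBijective phiHom hb).symm, ?_⟩
  intro P hP
  obtain ⟨u, hu⟩ := phi_surj P
  have h1 : (AddEquiv.ofBijective phiHom hb).symm P = Additive.ofMul u := by
    rw [AddEquiv.symm_apply_eq]
    exact hu.symm
  rw [h1]
  have h2 : (u : K) ≠ 1 := by
    intro h3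
    apply hP
    rw [← hu, show u = 1 from Units.ext h3, phi_one]
  refine ⟨h2, ?_⟩
  rw [← hu, phi_of_ne h2]
  rfl

end Pool.Agent.Helper54.BL
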