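import Pool.Agent.Helper29.BL.GoalsA
import Pool.Agent.Helper29.BL.GoalsC

/-!
# Packet 10436 (project BL, MP_a41896_nt): SP2, the structure of `Z_u`
-/

namespace Pool.Agent.Helper54.BL
open Pool.Agent.Helper29.BL
open WeierstrassCurve Height Height.AdmissibleAbsValues Polynomial
open scoped Polynomial.Bivariate

/-- `evO` commutes with automorphisms. -/
lemma evO_map {K Ω : Type} [Field K] [Field Ω] [Algebra K Ω] (τ : Ω ≃ₐ[K] Ω) (F : K[X][Y])
    (x y : Ω) : evO F (τ x, τ y) = τ (evO F (x, y)) := by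
  have h := Polynomial.map_mapRingHom_evalEval (τ : Ω →+* Ω)
    (F.map (mapRingHom (algebraMap K Ω))) x y
  have h2 : ((F.map (mapRingHom (algebraMap K Ω))).map (mapRingHom (τ : Ω →+* Ω))) =
      F.map (mapRingHom (algebraMap K Ω)) := by
    rw [Polynomial.map_map, Polynomial.mapRingHom_comp]
    congr 2
    ext x
    simp
  rw [h2] at h
  exact h

/-- `x` is even. -/
lemma xc_smul_unit (hX : XEQ) {F : Type} [Field F] [DecidableEq F] {W : Affine F} (s : ℤˣ)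
    (P : W.Point) : xc ((s : ℤ) • P) = xc P := by
  rcases Int.units_eq_one_or s with h | h
  · rw [h, Units.val_one, one_zsmul]
  · rw [h, Units.val_neg, Units.val_one, neg_zsmul, one_zsmul]
    exact (hX F W).2 P

lemma smul_unit_smul_unit {G : Type} [AddCommGroup G] (s : ℤˣ) (P : G) :
    (s : ℤ) • (s : ℤ) • P = P := by
  rcases Int.units_eq_one_or s with h | h
  · rw [h, Units.val_one, one_zsmul, one_zsmul]
  · rw [h, Units.val_neg, Units.val_one, neg_zsmul, one_zsmul, neg_zsmul, one_zsmul, neg_neg]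

lemma exists_unit (hX : XEQ) {F : Type} [Field F] [DecidableEq F] {W : Affine F}
    (P Q : W.Point) (hP : P ≠ 0) (hQ : Q ≠ 0) (h : xc P = xc Q) :
    ∃ s : ℤˣ, P = (s : ℤ) • Q := by
  rcases ((hX F W).1 P Q hP hQ).mp h with h | h
  · exact ⟨1, by rw [h, Units.val_one, one_zsmul]⟩
  · exact ⟨-1, by rw [h, Units.val_neg, Units.val_one, neg_zsmul, one_zsmul]⟩

/-- The action of an automorphism `τ` with `τ' u = s (u + w)` on the points `u + v`. -/
lemma tau_xc (hX : XEQ) {K Ω : Type} [Field K] [DecidableEq K] [Field Ω] [DecidableEq Ω]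
    [Algebra K Ω] {W : Affine K} (ι : W.Point →+ (bcW Ω W).Point) (τ : Ω ≃ₐ[K] Ω)
    (τ' : (bcW Ω W).Point →+ (bcW Ω W).Point) (hc : ∀ P, xc (τ' P) = τ (xc P))
    (hi : ∀ P, τ' (ι P) = ι P) (u : (bcW Ω W).Point) (w : W.Point) (s : ℤˣ)
    (hs : τ' u = (s : ℤ) • (u + ι w)) (v : W.Point) :
    τ (xc (u + ι v)) = xc (u + ι (w + (s : ℤ) • v)) := by
  have h1 : τ' (u + ι v) = (s : ℤ) • (u + ι (w + (s : ℤ) • v)) := by
    rw [map_add, hi, hs, map_add, ← add_assoc, zsmul_add (u + ι w), map_zsmul,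
      smul_unit_smul_unit]
  rw [← hc, h1, xc_smul_unit hX]

theorem sp2_of : AUT → EMB → ALG → XEQ → SP2 := by
  intro hAUT _ hALG hX K _ _ _ W₁ W₂ _ _ m Φ _ hirr hpd Ω _ _ _ a b hgen ι₁ ι₂ _ hx₁ _ _
    hτ₁ hτ₂ u hu hκ w hw
  have ha : xc u.1 = a := congrArg Prod.fst hκ
  have hb : xc u.2 = b := congrArg Prod.snd hκ
  have key : ∀ L : IntermediateField K Ω, IsAlgebraic L (xc (u.1 + ι₁ w.1)) →
      IsAlgebraic L a := by
    intro L hL
    have hm : IsAlgebraic L (xc (-(ι₁ w.1))) := by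
      rw [(hX Ω (bcW Ω W₁)).2, hx₁]
      have h3 : algebraMap K Ω (xc w.1) = algebraMap L Ω (algebraMap K L (xc w.1)) :=
        IsScalarTower.algebraMap_apply K L Ω _
      rw [h3]
      exact isAlgebraic_algebraMap _
    have h4 := (hALG K Ω L W₁).1 (u.1 + ι₁ w.1) (-(ι₁ w.1)) hL hm
    rw [add_neg_cancel_right, ha] at h4
    exact h4
  have htr : Transcendental K (xc (u.1 + ι₁ w.1)) := by
    intro halg
    have h5 : IsAlgebraic (⊥ : IntermediateField K Ω) a := key ⊥ (halg.tower_top _)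
    exact hgen.transa (h5.restrictScalars K)
  have halg : IsAlgebraic (IntermediateField.adjoin K {xc (u.1 + ι₁ w.1)}) a := by
    refine key _ ?_
    have h6 := isAlgebraic_algebraMap (A := Ω)
      (⟨xc (u.1 + ι₁ w.1), IntermediateField.mem_adjoin_simple_self K _⟩ :
        IntermediateField.adjoin K {xc (u.1 + ι₁ w.1)})
    exact h6
  obtain ⟨τ, hτa, hτb⟩ := hAUT K Φ hirr hpd Ω a b (xc (u.1 + ι₁ w.1)) (xc (u.2 + ι₂ w.2))
    hgen hw htr halg
  obtain ⟨τ₁', hz₁, hc₁, hi₁⟩ := hτ₁ τ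
  obtain ⟨τ₂', hz₂, hc₂, hi₂⟩ := hτ₂ τ
  have ne1 : u.1 + ι₁ w.1 ≠ 0 := by
    intro h
    rw [h, xc_zero] at htr
    exact htr isAlgebraic_zero
  have ne2 : u.2 + ι₂ w.2 ≠ 0 := by
    intro h
    rw [h, xc_zero] at hτb
    have hb0 : b = 0 := by
      have := congrArg τ.symm hτb
      rwa [AlgEquiv.symm_apply_apply, map_zero] at this
    have htb := hgen.transb
    rw [hb0] at htb
    exact htb isAlgebraic_zero
  obtain ⟨s₁, hs₁⟩ := exists_unit hX (τ₁' u.1) (u.1 + ι₁ w.1) (fun h => hu.1 (hz₁ _ h)) ne1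
    (by rw [hc₁, ha, hτa])
  obtain ⟨s₂, hs₂⟩ := exists_unit hX (τ₂' u.2) (u.2 + ι₂ w.2) (fun h => hu.2 (hz₂ _ h)) ne2
    (by rw [hc₂, hb, hτb])
  have main : ∀ v : W₁.Point × W₂.Point, Zu Φ ι₁ ι₂ u v ↔ Zu Φ ι₁ ι₂ u (w + sg (s₁, s₂) v) := by
    intro v
    have e1 := tau_xc hX ι₁ τ τ₁' hc₁ hi₁ u.1 w.1 s₁ hs₁ v.1
    have e2 := tau_xc hX ι₂ τ τ₂' hc₂ hi₂ u.2 w.2 s₂ hs₂ v.2
    have e3 : evO Φ (xc (u.1 + ι₁ (w + sg (s₁, s₂) v).1), xc (u.2 + ι₂ (w + sg (s₁, s₂) v).2)) =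
        τ (evO Φ (xc (u.1 + ι₁ v.1), xc (u.2 + ι₂ v.2))) := by
      rw [← evO_map, e1, e2]
      rfl
    unfold Zu
    rw [e3]
    exact (map_eq_zero_iff τ τ.injective).symm
  refine ⟨(s₁, s₂), fun w' hw' => (main w').mp hw', fun w' hw' => (main _).mpr ?_⟩
  have e4 : w + sg (s₁, s₂) (sg (s₁, s₂) (w' - w)) = w' := by
    have e5 : sg (s₁, s₂) (sg (s₁, s₂) (w' - w)) = w' - w := by
      apply Prod.ext
      · exact smul_unit_smul_unit s₁ _
      · exact smul_unit_smul_unit s₂ _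
    rw [e5, add_sub_cancel]
  rw [e4]
  exact hw'

end Pool.Agent.Helper54.BL
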