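import Pool.Agent.Helper29.BL.GoalsA
import Pool.Agent.Helper29.BL.GoalsB
import Pool.Agent.Helper29.BL.GoalsC
import Pool.Agent.Helper29.BL.GoalsF
import Pool.Agent.Helper61.BL.SP1
import Pool.Agent.Helper46.BL.SPEC
import Pool.Agent.Helper54.BL.SP2

/-!
# Packet 10456 (project BL, MP_a41896_nt): SPECg, the sixteen classes without `IsElliptic`
-/

namespace Pool.Agent.Helper54.BL
open Pool.Agent.Helper29.BL
open WeierstrassCurve Height Height.AdmissibleAbsValues Polynomial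
open scoped Polynomial.Bivariate

/-- `alg_bot` (Helper61), one factor: the points `u`, `v = ι y` are in general position. -/
lemma gen_posg (halg : ALGg) {K : Type} [Field K] [CharZero K] [DecidableEq K] {Ω : Type}
    [Field Ω] [DecidableEq Ω] [Algebra K Ω] (W : Affine K) (ι : W.Point →+ (bcW Ω W).Point)
    (hι0 : ∀ P, ι P = 0 → P = 0) (hι : ∀ P, xc (ι P) = algebraMap K Ω (xc P))
    (u : (bcW Ω W).Point) (hu : Transcendental K (xc u)) (y : W.Point)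
    (hy : ∀ n : ℕ, 0 < n → n • y ≠ 0) :
    ι y ≠ 0 ∧ u + u ≠ 0 ∧ ι y + ι y ≠ 0 ∧ u + ι y ≠ 0 ∧ u - ι y ≠ 0 := by
  have h1 : ι y ≠ 0 := fun h => hy 1 one_pos (by rw [one_smul]; exact hι0 _ h)
  refine ⟨h1, ?_, ?_, ?_, ?_⟩
  · intro h
    exact hu (Pool.Agent.Helper61.BL.alg_bot ((halg K Ω ⊥ W).2 u h))
  · intro h
    apply hy 2 two_pos
    apply hι0
    rw [two_smul, map_add]
    exact h
  · intro h
    apply hu
    have : u = ι (-y) := by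
      rw [map_neg]
      exact eq_neg_of_add_eq_zero_left h
    rw [this, hι]
    exact isAlgebraic_algebraMap _
  · intro h
    apply hu
    have : u = ι y := sub_eq_zero.1 h
    rw [this, hι]
    exact isAlgebraic_algebraMap _

/-- SP1 without `IsElliptic`. -/
theorem sp1g (ht : T2) (htm : TMAP) (halg : ALGg) (K : Type) [Field K] [CharZero K]
    [DecidableEq K] (W₁ W₂ : Affine K) (m : ℕ) (Φ : K[X][Y]) (hBD : BD m Φ)
    (Ω : Type) [Field Ω] [DecidableEq Ω]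
    [Algebra K Ω] (a b : Ω) (hgen : Gen Φ Ω a b) (ι₁ : W₁.Point →+ (bcW Ω W₁).Point)
    (ι₂ : W₂.Point →+ (bcW Ω W₂).Point)
    (h10 : ∀ P, ι₁ P = 0 → P = 0) (h1 : ∀ P, xc (ι₁ P) = algebraMap K Ω (xc P))
    (h20 : ∀ P, ι₂ P = 0 → P = 0) (h2 : ∀ P, xc (ι₂ P) = algebraMap K Ω (xc P))
    (u : (bcW Ω W₁).Point × (bcW Ω W₂).Point) (hu : Aff u) (hk : kap u = (a, b))
    (y : W₁.Point × W₂.Point) (hy : NT y) :
    Φ ∣ Tr W₁ W₂ m Φ (xc y.1) (xc y.2) ↔ ∃ s : ℤˣ × ℤˣ, Zu Φ ι₁ ι₂ u (sg s y) := by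
  obtain ⟨-, -, hm3, -⟩ := htm
  have hka : xc u.1 = a := congrArg Prod.fst hk
  have hkb : xc u.2 = b := congrArg Prod.snd hk
  have ha : Transcendental K (xc u.1) := by rw [hka]; exact hgen.transa
  have hb : Transcendental K (xc u.2) := by rw [hkb]; exact hgen.transb
  obtain ⟨p1, p2, p3, p4, p5⟩ := gen_posg halg W₁ ι₁ h10 h1 u.1 ha y.1 hy.1
  obtain ⟨q1, q2, q3, q4, q5⟩ := gen_posg halg W₂ ι₂ h20 h2 u.2 hb y.2 hy.2
  obtain ⟨U1, U2, hprod⟩ := ht Ω (bcW Ω W₁) (bcW Ω W₂) m (Φ.map (mapRingHom (algebraMap K Ω))) u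
    (ι₁ y.1, ι₂ y.2) (Pool.Agent.Helper61.BL.BD_map _ hBD) hu ⟨p1, q1⟩ ⟨p2, q2⟩ ⟨p3, q3⟩
    ⟨p4, q4⟩ ⟨p5, q5⟩
  have hev : evO (Tr W₁ W₂ m Φ (xc y.1) (xc y.2)) (a, b) =
      TT (bcW Ω W₁) (bcW Ω W₂) m (Φ.map (mapRingHom (algebraMap K Ω))) (xc (ι₁ y.1)) (xc (ι₂ y.2))
        (xc u.1) (xc u.2) := by
    unfold evO
    rw [hm3 K Ω (algebraMap K Ω) W₁ W₂ m Φ (xc y.1) (xc y.2) a b, h1, h2, hka, hkb]
  rw [← hgen.ker, hev, hprod, mul_eq_zero, mul_eq_zero, Finset.prod_eq_zero_iff]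
  have hs : ∀ s : ℤˣ × ℤˣ, ev (Φ.map (mapRingHom (algebraMap K Ω)))
      (kap (u + sg s (ι₁ y.1, ι₂ y.2))) = 0 ↔ Zu Φ ι₁ ι₂ u (sg s y) := by
    intro s
    unfold Zu evO kap sg
    simp only [Prod.fst_add, Prod.snd_add, map_zsmul]
  constructor
  · rintro ((h | h) | ⟨s, -, h⟩)
    · exact absurd h (pow_ne_zero _ U1)
    · exact absurd h (pow_ne_zero _ U2)
    · exact ⟨s, (hs s).1 h⟩
  · rintro ⟨s, h⟩
    exact Or.inr ⟨s, Finset.mem_univ _, (hs s).2 h⟩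

/-- SP2 without `IsElliptic`. -/
theorem sp2g (hAUT : AUT) (hALG : ALGg) (hX : XEQ) (K : Type) [Field K] [CharZero K]
    [DecidableEq K] (W₁ W₂ : Affine K) (Φ : K[X][Y])
    (hirr : Irreducible Φ) (hpd : PosDeg Φ) (Ω : Type) [Field Ω] [DecidableEq Ω]
    [Algebra K Ω] (a b : Ω) (hgen : Gen Φ Ω a b) (ι₁ : W₁.Point →+ (bcW Ω W₁).Point)
    (ι₂ : W₂.Point →+ (bcW Ω W₂).Point) (hx₁ : ∀ P, xc (ι₁ P) = algebraMap K Ω (xc P))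
    (hτ₁ : ∀ τ : Ω ≃ₐ[K] Ω, ∃ τ' : (bcW Ω W₁).Point →+ (bcW Ω W₁).Point,
      (∀ P, τ' P = 0 → P = 0) ∧ (∀ P, xc (τ' P) = τ (xc P)) ∧ ∀ P, τ' (ι₁ P) = ι₁ P)
    (hτ₂ : ∀ τ : Ω ≃ₐ[K] Ω, ∃ τ' : (bcW Ω W₂).Point →+ (bcW Ω W₂).Point,
      (∀ P, τ' P = 0 → P = 0) ∧ (∀ P, xc (τ' P) = τ (xc P)) ∧ ∀ P, τ' (ι₂ P) = ι₂ P)
    (u : (bcW Ω W₁).Point × (bcW Ω W₂).Point) (hu : Aff u) (hκ : kap u = (a, b))
    (w : W₁.Point × W₂.Point) (hw : Zu Φ ι₁ ι₂ u w) : ∃ s : ℤˣ × ℤˣ,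
    (∀ w', Zu Φ ι₁ ι₂ u w' → Zu Φ ι₁ ι₂ u (w + sg s w')) ∧
    (∀ w', Zu Φ ι₁ ι₂ u w' → Zu Φ ι₁ ι₂ u (sg s (w' - w))) := by
  have ha : xc u.1 = a := congrArg Prod.fst hκ
  have hb : xc u.2 = b := congrArg Prod.snd hκ
  have key : ∀ L : IntermediateField K Ω, IsAlgebraic L (xc (u.1 + ι₁ w.1)) →
      IsAlgebraic L a := by
    intro L hL
    have hm : IsAlgebraic L (xc (-(ι₁ w.1))) := by
      rw [(hX Ω (bcW Ω W₁)).2, hx₁]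
      have h3 : algebraMap K Ω (xc w.1) = algebraMap L Ω (algebraMap K L (xc w.1)) :=
        IsScalarTower.algebraMap_apply K L Ω _
      rw [h3]
      exact isAlgebraic_algebraMap _
    have h4 := (hALG K Ω L W₁).1 (u.1 + ι₁ w.1) (-(ι₁ w.1)) hL hm
    rw [add_neg_cancel_right, ha] at h4
    exact h4
  have htr : Transcendental K (xc (u.1 + ι₁ w.1)) := by
    intro halg
    have h5 : IsAlgebraic (⊥ : IntermediateField K Ω) a := key ⊥ (halg.tower_top _)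
    exact hgen.transa (h5.restrictScalars K)
  have halg : IsAlgebraic (IntermediateField.adjoin K {xc (u.1 + ι₁ w.1)}) a := by
    refine key _ ?_
    have h6 := isAlgebraic_algebraMap (A := Ω)
      (⟨xc (u.1 + ι₁ w.1), IntermediateField.mem_adjoin_simple_self K _⟩ :
        IntermediateField.adjoin K {xc (u.1 + ι₁ w.1)})
    exact h6
  obtain ⟨τ, hτa, hτb⟩ := hAUT K Φ hirr hpd Ω a b (xc (u.1 + ι₁ w.1)) (xc (u.2 + ι₂ w.2))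
    hgen hw htr halg
  obtain ⟨τ₁', hz₁, hc₁, hi₁⟩ := hτ₁ τ
  obtain ⟨τ₂', hz₂, hc₂, hi₂⟩ := hτ₂ τ
  have ne1 : u.1 + ι₁ w.1 ≠ 0 := by
    intro h
    rw [h, xc_zero] at htr
    exact htr isAlgebraic_zero
  have ne2 : u.2 + ι₂ w.2 ≠ 0 := by
    intro h
    rw [h, xc_zero] at hτb
    have hb0 : b = 0 := by
      have := congrArg τ.symm hτb
      rwa [AlgEquiv.symm_apply_apply, map_zero] at this
    have htb := hgen.transb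
    rw [hb0] at htb
    exact htb isAlgebraic_zero
  obtain ⟨s₁, hs₁⟩ := exists_unit hX (τ₁' u.1) (u.1 + ι₁ w.1) (fun h => hu.1 (hz₁ _ h)) ne1
    (by rw [hc₁, ha, hτa])
  obtain ⟨s₂, hs₂⟩ := exists_unit hX (τ₂' u.2) (u.2 + ι₂ w.2) (fun h => hu.2 (hz₂ _ h)) ne2
    (by rw [hc₂, hb, hτb])
  have main : ∀ v : W₁.Point × W₂.Point, Zu Φ ι₁ ι₂ u v ↔ Zu Φ ι₁ ι₂ u (w + sg (s₁, s₂) v) := by
    intro v
    have e1 := tau_xc hX ι₁ τ τ₁' hc₁ hi₁ u.1 w.1 s₁ hs₁ v.1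
    have e2 := tau_xc hX ι₂ τ τ₂' hc₂ hi₂ u.2 w.2 s₂ hs₂ v.2
    have e3 : evO Φ (xc (u.1 + ι₁ (w + sg (s₁, s₂) v).1), xc (u.2 + ι₂ (w + sg (s₁, s₂) v).2)) =
        τ (evO Φ (xc (u.1 + ι₁ v.1), xc (u.2 + ι₂ v.2))) := by
      rw [← evO_map, e1, e2]
      rfl
    unfold Zu
    rw [e3]
    exact (map_eq_zero_iff τ τ.injective).symm
  refine ⟨(s₁, s₂), fun w' hw' => (main w').mp hw', fun w' hw' => (main _).mpr ?_⟩
  have e4 : w + sg (s₁, s₂) (sg (s₁, s₂) (w' - w)) = w' := by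
    rw [Pool.Agent.Helper46.BL.sg_sg, add_sub_cancel]
  rw [e4]
  exact hw'

theorem specg_of : GEN → AUT → PEXg → EMB → ALGg → T2 → TMAP → XEQ → SPECg := by
  intro hG hAUT hP hE hALG hT2 hTMAP hX K _ _ _ W₁ W₂ m Φ hBD hirr hpos
  obtain ⟨Ω, _, _, a, b, hgen⟩ := hG K Φ hirr hpos
  classical
  have := hgen.closed
  obtain ⟨ι₁, i1, i2, i3⟩ := hE K Ω W₁
  obtain ⟨ι₂, j1, j2, j3⟩ := hE K Ω W₂
  obtain ⟨P₁, hP₁, hx₁⟩ := hP K Ω W₁ a hgen.transa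
  obtain ⟨P₂, hP₂, hx₂⟩ := hP K Ω W₂ b hgen.transb
  have hA : Aff ((P₁, P₂) : (bcW Ω W₁).Point × (bcW Ω W₂).Point) := ⟨hP₁, hP₂⟩
  have hk : kap ((P₁, P₂) : (bcW Ω W₁).Point × (bcW Ω W₂).Point) = (a, b) := by
    simp only [kap, hx₁, hx₂]
  have s1 := sp1g hT2 hTMAP hALG K W₁ W₂ m Φ hBD Ω a b hgen ι₁ ι₂ i1 i2 j1 j2 (P₁, P₂) hA hk
  have s2 := sp2g hAUT hALG hX K W₁ W₂ Φ hirr hpos Ω a b hgen ι₁ ι₂ i2 i3 j3 (P₁, P₂) hA hk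
  generalize hZ : Zu Φ ι₁ ι₂ (P₁, P₂) = Z at s1 s2
  have hZ0 : Z 0 := by
    rw [← hZ]
    show evO Φ (xc (P₁ + ι₁ 0), xc (P₂ + ι₂ 0)) = 0
    rw [map_zero, map_zero, add_zero, add_zero, hx₁, hx₂]
    exact (hgen.ker Φ).mpr dvd_rfl
  -- the two choices
  let σ : W₁.Point × W₂.Point → ℤˣ × ℤˣ := fun y =>
    if h : ∃ s : ℤˣ × ℤˣ, Z (sg s y) then h.choose else (1, 1)
  have hσ : ∀ y, (∃ s : ℤˣ × ℤˣ, Z (sg s y)) → Z (sg (σ y) y) := by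
    intro y h
    simp only [σ, dif_pos h]
    exact h.choose_spec
  let ρ : W₁.Point × W₂.Point → ℤˣ × ℤˣ := fun w =>
    if h : Z w then (s2 w h).choose else (1, 1)
  have hρ : ∀ w, Z w → (∀ w', Z w' → Z (w + sg (ρ w) w')) ∧
      (∀ w', Z w' → Z (sg (ρ w) (w' - w))) := by
    intro w h
    simp only [ρ, dif_pos h]
    exact (s2 w h).choose_spec
  have key : ∀ w₁ w₂, Z w₁ → Z w₂ → ρ w₁ = ρ w₂ → ∀ n : ℕ, Z (n • (w₁ - w₂)) := by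
    intro w₁ w₂ hw₁ hw₂ he n
    induction n with
    | zero => rw [zero_smul]; exact hZ0
    | succ n ih =>
      have q := (hρ w₁ hw₁).1 _ ((hρ w₂ hw₂).2 _ ih)
      rw [he, Pool.Agent.Helper46.BL.sg_sg] at q
      rw [succ_nsmul]
      have e : w₁ + (n • (w₁ - w₂) - w₂) = n • (w₁ - w₂) + (w₁ - w₂) := by abel
      rwa [e] at q
  have hcard : Fintype.card ((ℤˣ × ℤˣ) × (ℤˣ × ℤˣ)) = 16 := by
    simp only [Fintype.card_prod, Fintype.card_units_int]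
  let e : (ℤˣ × ℤˣ) × (ℤˣ × ℤˣ) ≃ Fin 16 := Fintype.equivFinOfCardEq hcard
  refine ⟨fun y => e (σ y, ρ (sg (σ y) y)), ?_⟩
  intro y y' hy hy' hyy hd hd' hcl n hn
  have hcl' := e.injective hcl
  rw [Prod.mk.injEq] at hcl'
  obtain ⟨c1, c2⟩ := hcl'
  have z1 : Z (sg (σ y) y) := hσ y ((s1 y hy).mp hd)
  have z2 : Z (sg (σ y') y') := hσ y' ((s1 y' hy').mp hd')
  have q := key _ _ z1 z2 c2 n
  rw [← c1, ← Pool.Agent.Helper46.BL.sg_sub, ← Pool.Agent.Helper46.BL.sg_nsmul] at q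
  exact (s1 (n • (y - y')) (Pool.Agent.Helper46.BL.NT_nsmul hyy hn)).mpr ⟨σ y, q⟩

end Pool.Agent.Helper54.BL
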